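import Pool.Agent.Lib.MP_c95b3b_ag_AL.Defs

/-! Project G (MP_c95b3b_ag), block GZ: zero estimate over a field `K`. Definitions. -/

namespace Pool.Agent.GZ

open MvPolynomial
open Pool.Agent.AL (wt)

section
variable {ι K : Type} [Field K]

/-- the Taylor expansion at `P` -/
noncomputable def shf (P : ι → K) (f : MvPolynomial ι K) : MvPolynomial ι K :=
  aeval (fun i => C (P i) + X i) f

/-- the weighted order of vanishing at `P` -/
noncomputable def ordW [Fintype ι] (H : ι → ℕ) (P : ι → K) (f : MvPolynomial ι K) : ℕ :=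
  sInf {m | ∃ γ, coeff γ (shf P f) ≠ 0 ∧ m = wt H γ}

/-- a polynomial as a polynomial in the variable `l` -/
noncomputable def toP [DecidableEq ι] (l : ι) :
    MvPolynomial ι K →ₐ[K] Polynomial (MvPolynomial ι K) :=
  aeval fun i => if i = l then Polynomial.X else Polynomial.C (X i)

/-- the minimal order of the coefficients with respect to the variable `l` -/
noncomputable def cord [Fintype ι] [DecidableEq ι] (H : ι → ℕ) (P : ι → K) (l : ι)
    (f : MvPolynomial ι K) : ℕ :=
  sInf {m | ∃ k, (toP l f).coeff k ≠ 0 ∧ m = ordW H P ((toP l f).coeff k)}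

/-- logarithmic size functions (projective heights) for the polynomials over `K` in the
variables `ι` -/
structure SzF (ι K : Type) [Fintype ι] [DecidableEq ι] [Field K] where
  L : MvPolynomial ι K → ℝ
  nonneg : ∀ f, f ≠ 0 → 0 ≤ L f
  gel : ∀ (κ : Type) (s : Finset κ) (V : κ → MvPolynomial ι K), (∀ k ∈ s, V k ≠ 0) →
    ∑ k ∈ s, L (V k) ≤ L (∏ k ∈ s, V k) +
      2 * Real.log 2 * ∑ i, ((∏ k ∈ s, V k).degreeOf i : ℝ)
  der : ∀ (l : ι) (f : MvPolynomial ι K), pderiv l f ≠ 0 →
    L (pderiv l f) ≤ Real.log (f.degreeOf l) + L f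
  cf : ∀ (l : ι) (f : MvPolynomial ι K) (k : ℕ), (toP l f).coeff k ≠ 0 →
    L ((toP l f).coeff k) ≤ L f
  res : ∀ (l : ι) (f g : MvPolynomial ι K) (a b : ℕ), (toP l f).resultant (toP l g) a b ≠ 0 →
    L ((toP l f).resultant (toP l g) a b) ≤ b * L f + a * L g

/-- the size of a polynomial -/
noncomputable def sz [Fintype ι] [DecidableEq ι] (S : SzF ι K) (H : ι → ℕ) (h0 : ℝ)
    (f : MvPolynomial ι K) : ℝ :=
  ∑ i, (H i : ℝ) * f.degreeOf i + h0 * S.L f

end

end Pool.Agent.GZ
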