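import Pool.Agent.Lib.MP_c95b3b_ag_GZ.Defs

/-! Project G (MP_c95b3b_ag), block GZ, module ZA: derivatives. -/

namespace Pool.Agent.GZ

open Module MvPolynomial
open Pool.Agent.AL (wt Scales)

theorem degreeOf_pderiv_le {ι K : Type} [Field K] [DecidableEq ι] (f : MvPolynomial ι K)
    (l i : ι) : (pderiv l f).degreeOf i ≤ f.degreeOf i := by
  rw [degreeOf_le_iff]
  intro m hm
  rw [MvPolynomial.mem_support_iff, coeff_pderiv] at hm
  have h1 : m + Finsupp.single l 1 ∈ f.support :=
    MvPolynomial.mem_support_iff.mpr (left_ne_zero_of_mul hm)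
  have h2 := monomial_le_degreeOf i h1
  rw [Finsupp.add_apply] at h2
  omega

theorem degreeOf_pderiv_self {ι K : Type} [Field K] [CharZero K] [DecidableEq ι]
    (f : MvPolynomial ι K) (l : ι) (hl : l ∈ f.vars) :
    (pderiv l f).degreeOf l < f.degreeOf l ∧ pderiv l f ≠ 0 := by
  have h0 : f.degreeOf l ≠ 0 := mem_vars_iff_degreeOf_ne_zero.mp hl
  constructor
  · rw [degreeOf_lt_iff (Nat.pos_of_ne_zero h0)]
    intro m hm
    rw [MvPolynomial.mem_support_iff, coeff_pderiv] at hm
    have h1 : m + Finsupp.single l 1 ∈ f.support :=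
      MvPolynomial.mem_support_iff.mpr (left_ne_zero_of_mul hm)
    have h2 := monomial_le_degreeOf l h1
    rw [Finsupp.add_apply, Finsupp.single_eq_same] at h2
    omega
  · obtain ⟨m, hm, hml⟩ := (mem_vars_iff_mem_support l).mp hl
    rw [Finsupp.mem_support_iff] at hml
    intro hz
    have h1 : coeff (m - Finsupp.single l 1) (pderiv l f) = 0 := by rw [hz, coeff_zero]
    have h2 : m - Finsupp.single l 1 + Finsupp.single l 1 = m := by
      ext j
      rw [Finsupp.add_apply, Finsupp.tsub_apply]
      by_cases hj : j = l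
      · subst hj
        rw [Finsupp.single_eq_same]
        omega
      · rw [Finsupp.single_eq_of_ne hj]
        omega
    rw [coeff_pderiv, h2] at h1
    rcases mul_eq_zero.mp h1 with h | h
    · exact MvPolynomial.mem_support_iff.mp hm h
    · have h3 : ((((m - Finsupp.single l 1 : ι →₀ ℕ) l + 1 : ℕ) : K)) = 0 := by
        push_cast
        exact h
      exact Nat.succ_ne_zero _ (Nat.cast_eq_zero.mp h3)

theorem vars_pderiv {ι K : Type} [Field K] [DecidableEq ι] (f : MvPolynomial ι K) (l : ι) :
    (pderiv l f).vars ⊆ f.vars := by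
  intro i hi
  rw [mem_vars_iff_degreeOf_ne_zero] at hi ⊢
  have := degreeOf_pderiv_le f l i
  omega

end Pool.Agent.GZ
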