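import Pool.Agent.Lib.MP_c95b3b_ag_GZ.Defs

/-! Project G (MP_c95b3b_ag), block GZ, module ZF: degrees and variables of resultants. -/

namespace Pool.Agent.GZ

open Module MvPolynomial
open Pool.Agent.AL (wt Scales)

namespace ZF

/-- degree of a determinant in one variable -/
theorem degreeOf_det {ι K : Type} [Field K] {n : ℕ} (M : Matrix (Fin n) (Fin n) (MvPolynomial ι K)) (i : ι)
    (c : Fin n → ℕ) (h : ∀ r s, (M r s).degreeOf i ≤ c s) : M.det.degreeOf i ≤ ∑ s, c s := by
  rw [Matrix.det_apply]
  refine le_trans (degreeOf_sum_le _ _ _) (Finset.sup_le (fun σ _ => ?_))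
  have h1 : (∏ s, M (σ s) s).degreeOf i ≤ ∑ s, c s :=
    le_trans (degreeOf_prod_le _ _ _) (Finset.sum_le_sum (fun s _ => h _ _))
  rcases Int.units_eq_one_or (Equiv.Perm.sign σ) with hs | hs
  · rw [hs, one_smul]
    exact h1
  · rw [hs, Units.neg_smul, one_smul, degreeOf_neg]
    exact h1

end ZF

theorem degreeOf_resultant {ι K : Type} [Field K] (F G : Polynomial (MvPolynomial ι K)) (a b : ℕ)
    (i : ι) (dF dG : ℕ) (hF : ∀ k, (F.coeff k).degreeOf i ≤ dF)
    (hG : ∀ k, (G.coeff k).degreeOf i ≤ dG) :
    (F.resultant G a b).degreeOf i ≤ b * dF + a * dG := by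
  have h := ZF.degreeOf_det (Polynomial.sylvester F G a b) i
    (Fin.addCases (fun _ => dG) (fun _ => dF)) (by
      intro r s
      refine Fin.addCases (fun s => ?_) (fun s => ?_) s
      · rw [Fin.addCases_left]
        simp only [Polynomial.sylvester, Matrix.of_apply, Fin.addCases_left]
        split
        · exact hG _
        · rw [degreeOf_zero]
          exact Nat.zero_le _
      · rw [Fin.addCases_right]
        simp only [Polynomial.sylvester, Matrix.of_apply, Fin.addCases_right]
        split
        · exact hF _
        · rw [degreeOf_zero]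
          exact Nat.zero_le _)
  rw [Fin.sum_univ_add] at h
  simp only [Fin.addCases_left, Fin.addCases_right, Finset.sum_const, Finset.card_univ,
    Fintype.card_fin, smul_eq_mul] at h
  rw [add_comm]
  exact h

theorem vars_resultant {ι K : Type} [Field K] [DecidableEq ι]
    (F G : Polynomial (MvPolynomial ι K)) (a b : ℕ)
    (s : Finset ι) (hF : ∀ k, (F.coeff k).vars ⊆ s) (hG : ∀ k, (G.coeff k).vars ⊆ s) :
    (F.resultant G a b).vars ⊆ s := by
  have key : F.resultant G a b ∈ MvPolynomial.supported K (s : Set ι) := by
    unfold Polynomial.resultant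
    rw [Matrix.det_apply]
    refine sum_mem (fun σ _ => ?_)
    have h1 : ∏ t, Polynomial.sylvester F G a b (σ t) t ∈
        MvPolynomial.supported K (s : Set ι) := by
      refine prod_mem (fun t _ => ?_)
      refine Fin.addCases (fun t => ?_) (fun t => ?_) t
      · simp only [Polynomial.sylvester, Matrix.of_apply, Fin.addCases_left]
        split
        · rw [MvPolynomial.mem_supported]
          exact_mod_cast hG _
        · exact zero_mem _
      · simp only [Polynomial.sylvester, Matrix.of_apply, Fin.addCases_right]
        split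
        · rw [MvPolynomial.mem_supported]
          exact_mod_cast hF _
        · exact zero_mem _
    rcases Int.units_eq_one_or (Equiv.Perm.sign σ) with hs | hs
    · rw [hs, one_smul]
      exact h1
    · rw [hs, Units.neg_smul, one_smul]
      exact neg_mem h1
  rw [MvPolynomial.mem_supported] at key
  exact_mod_cast key

end Pool.Agent.GZ
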