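import Pool.Agent.Lib.MP_c95b3b_ag_GZ.Defs

/-! Project G (MP_c95b3b_ag), block GZ, module ZG: polynomials in one variable. -/

namespace Pool.Agent.GZ

open Module MvPolynomial
open Pool.Agent.AL (wt Scales)

section
variable {ι K : Type} [Field K] [DecidableEq ι] (l : ι)

namespace ZG

theorem toP_X_self : toP l (X l : MvPolynomial ι K) = Polynomial.X := by
  unfold toP
  rw [aeval_X, if_pos rfl]

theorem toP_X_ne {i : ι} (h : i ≠ l) :
    toP l (X i : MvPolynomial ι K) = Polynomial.C (X i) := by
  unfold toP
  rw [aeval_X, if_neg h]

theorem toP_monomial (m : ι →₀ ℕ) (a : K) :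
    toP l (monomial m a) = Polynomial.monomial (m l) (monomial (m.erase l) a) := by
  unfold toP
  rw [aeval_monomial, ← Finsupp.mul_prod_erase' m l _ (fun i => pow_zero _), if_pos rfl,
    ← Polynomial.C_mul_X_pow_eq_monomial]
  have h1 : (m.erase l).prod (fun i k =>
      (if i = l then Polynomial.X else Polynomial.C (X i) :
        Polynomial (MvPolynomial ι K)) ^ k) =
      Polynomial.C ((m.erase l).prod (fun i k => (X i : MvPolynomial ι K) ^ k)) := by
    unfold Finsupp.prod
    rw [map_prod]
    refine Finset.prod_congr rfl (fun i hi => ?_)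
    have hil : i ≠ l := by
      rw [Finsupp.support_erase, Finset.mem_erase] at hi
      exact hi.1
    change (if i = l then Polynomial.X else Polynomial.C (X i) :
        Polynomial (MvPolynomial ι K)) ^ (m.erase l) i =
      Polynomial.C ((X i : MvPolynomial ι K) ^ (m.erase l) i)
    rw [if_neg hil, map_pow]
  rw [h1, monomial_eq, map_mul]
  have h2 : (algebraMap K (Polynomial (MvPolynomial ι K))) a =
      Polynomial.C (C a : MvPolynomial ι K) := rfl
  rw [h2]
  ring

theorem coeff_coeff (f : MvPolynomial ι K) (k : ℕ) (m : ι →₀ ℕ) :
    coeff m ((toP l f).coeff k) =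
      if m l = 0 then coeff (m + Finsupp.single l k) f else 0 := by
  induction f using MvPolynomial.induction_on' with
  | monomial u a =>
    rw [toP_monomial, Polynomial.coeff_monomial]
    by_cases hk : u l = k
    · rw [if_pos hk, coeff_monomial, coeff_monomial]
      by_cases hm : m l = 0
      · rw [if_pos hm]
        have : u.erase l = m ↔ u = m + Finsupp.single l k := by
          constructor
          · intro h
            rw [← h, ← hk]
            exact (Finsupp.erase_add_single l u).symm
          · intro h
            rw [h]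
            ext i
            by_cases hi : i = l
            · subst hi
              rw [Finsupp.erase_same, hm]
            · rw [Finsupp.erase_ne hi, Finsupp.add_apply, Finsupp.single_eq_of_ne hi, add_zero]
        by_cases h : u.erase l = m
        · rw [if_pos h, if_pos (this.mp h)]
        · rw [if_neg h, if_neg (fun h' => h (this.mpr h'))]
      · rw [if_neg hm, if_neg]
        intro h
        apply hm
        rw [← h, Finsupp.erase_same]
    · rw [if_neg hk, coeff_zero]
      split
      · rename_i hm
        rw [coeff_monomial, if_neg]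
        intro h
        apply hk
        rw [h, Finsupp.add_apply, hm, Finsupp.single_eq_same, zero_add]
      · rfl
  | add p q hp hq =>
    rw [map_add, Polynomial.coeff_add, coeff_add, hp, hq, coeff_add]
    split
    · rfl
    · rw [add_zero]

theorem mem_support {f : MvPolynomial ι K} {k : ℕ} {m : ι →₀ ℕ}
    (h : m ∈ ((toP l f).coeff k).support) :
    m l = 0 ∧ m + Finsupp.single l k ∈ f.support := by
  rw [MvPolynomial.mem_support_iff, coeff_coeff] at h
  by_cases hm : m l = 0
  · rw [if_pos hm] at h
    exact ⟨hm, MvPolynomial.mem_support_iff.mpr h⟩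
  · rw [if_neg hm] at h
    exact absurd rfl h

end ZG

theorem eval_toP (f : MvPolynomial ι K) : (toP l f).eval (X l) = f := by
  induction f using MvPolynomial.induction_on' with
  | monomial u a =>
    rw [ZG.toP_monomial, Polynomial.eval_monomial]
    have h : (X l : MvPolynomial ι K) ^ u l = monomial (Finsupp.single l (u l)) 1 := X_pow_eq_monomial
    rw [h, monomial_mul, mul_one, Finsupp.erase_add_single]
  | add p q hp hq => rw [map_add, Polynomial.eval_add, hp, hq]

theorem natDegree_toP (f : MvPolynomial ι K) : (toP l f).natDegree = f.degreeOf l := by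
  apply le_antisymm
  · rw [Polynomial.natDegree_le_iff_coeff_eq_zero]
    intro k hk
    ext m
    rw [coeff_zero]
    by_contra h
    obtain ⟨h1, h2⟩ := ZG.mem_support l (MvPolynomial.mem_support_iff.mpr h)
    have h3 := monomial_le_degreeOf l h2
    rw [Finsupp.add_apply, Finsupp.single_eq_same] at h3
    omega
  · rw [degreeOf_le_iff]
    intro m hm
    apply Polynomial.le_natDegree_of_ne_zero
    intro h
    have h1 : coeff (m.erase l) ((toP l f).coeff (m l)) = 0 := by rw [h, coeff_zero]
    rw [ZG.coeff_coeff, if_pos Finsupp.erase_same, Finsupp.erase_add_single] at h1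
    exact MvPolynomial.mem_support_iff.mp hm h1

theorem degreeOf_coeff_toP (f : MvPolynomial ι K) (k : ℕ) (i : ι) :
    ((toP l f).coeff k).degreeOf i ≤ f.degreeOf i := by
  rw [degreeOf_le_iff]
  intro m hm
  obtain ⟨_, h2⟩ := ZG.mem_support l hm
  have h3 := monomial_le_degreeOf i h2
  rw [Finsupp.add_apply] at h3
  omega

theorem vars_coeff_toP (f : MvPolynomial ι K) (k : ℕ) :
    ((toP l f).coeff k).vars ⊆ f.vars.erase l := by
  intro i hi
  rw [Finset.mem_erase]
  constructor
  · rintro rfl
    obtain ⟨m, hm, hml⟩ := (mem_vars_iff_mem_support _).mp hi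
    rw [Finsupp.mem_support_iff] at hml
    exact hml (ZG.mem_support _ hm).1
  · rw [mem_vars_iff_degreeOf_ne_zero] at hi ⊢
    have := degreeOf_coeff_toP l f k i
    omega

theorem toP_pderiv (f : MvPolynomial ι K) :
    toP l (pderiv l f) = Polynomial.derivative (toP l f) := by
  induction f using MvPolynomial.induction_on' with
  | monomial u a =>
    rw [pderiv_monomial, ZG.toP_monomial, ZG.toP_monomial, Polynomial.derivative_monomial]
    have h1 : (u - Finsupp.single l 1 : ι →₀ ℕ) l = u l - 1 := by
      rw [Finsupp.tsub_apply, Finsupp.single_eq_same]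
    have h2 : (u - Finsupp.single l 1 : ι →₀ ℕ).erase l = u.erase l := by
      ext i
      by_cases hi : i = l
      · subst hi
        rw [Finsupp.erase_same, Finsupp.erase_same]
      · rw [Finsupp.erase_ne hi, Finsupp.erase_ne hi, Finsupp.tsub_apply,
          Finsupp.single_eq_of_ne hi, Nat.sub_zero]
    rw [h1, h2]
    congr 1
    have h3 : ((u l : ℕ) : MvPolynomial ι K) = C ((u l : ℕ) : K) := by simp
    rw [h3, mul_comm (monomial (u.erase l) a), C_mul_monomial, mul_comm]
  | add p q hp hq => rw [map_add, map_add, hp, hq, map_add, map_add]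

namespace ZG

/-- polynomials in the variable `l` over the polynomials in the other variables -/
noncomputable def e : MvPolynomial ι K ≃ₐ[K] Polynomial (MvPolynomial {i // i ≠ l} K) :=
  (renameEquiv K (Equiv.optionSubtypeNe l).symm).trans (optionEquivLeft K _)

/-- the inclusion of the polynomials without the variable `l` -/
noncomputable def φ (l : ι) : MvPolynomial {i // i ≠ l} K →+* MvPolynomial ι K :=
  (rename (Subtype.val : {i // i ≠ l} → ι)).toRingHom

omit [DecidableEq ι] in
theorem φ_inj : Function.Injective (φ (K := K) l) :=
  rename_injective _ Subtype.val_injective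

theorem toP_eq (f : MvPolynomial ι K) : toP l f = (e l f).map (φ l) := by
  induction f using MvPolynomial.induction_on with
  | C a =>
    have h1 : toP l (C a) = Polynomial.C (C a) := by
      unfold toP
      rw [aeval_C]
      rfl
    have h2 : e l (C a) = Polynomial.C (C a) := by
      unfold e
      simp
    rw [h1, h2, Polynomial.map_C]
    congr 1
    unfold φ
    simp
  | add p q hp hq => rw [map_add, map_add, hp, hq, Polynomial.map_add]
  | mul_X p i hp =>
    rw [map_mul, map_mul, hp, Polynomial.map_mul]
    congr 1
    by_cases hi : i = l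
    · subst hi
      rw [toP_X_self]
      have h2 : e i (X i : MvPolynomial ι K) = Polynomial.X := by
        unfold e
        simp
      rw [h2, Polynomial.map_X]
    · rw [toP_X_ne l hi]
      have h2 : e l (X i : MvPolynomial ι K) = Polynomial.C (X ⟨i, hi⟩) := by
        unfold e
        simp [hi]
      rw [h2, Polynomial.map_C]
      congr 1
      unfold φ
      simp

theorem natDegree_e (f : MvPolynomial ι K) : (e l f).natDegree = f.degreeOf l := by
  rw [← natDegree_toP, toP_eq, Polynomial.natDegree_map_eq_of_injective (φ_inj l)]

end ZG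

theorem resultant_ne_zero [CharZero K] (V : MvPolynomial ι K) (hV : Irreducible V)
    (hl : l ∈ V.vars) :
    (toP l V).resultant (toP l (pderiv l V)) (V.degreeOf l) ((pderiv l V).degreeOf l) ≠ 0 := by
  have hd0 : (toP l V).natDegree ≠ 0 := by
    rw [natDegree_toP]
    exact mem_vars_iff_degreeOf_ne_zero.mp hl
  have hdeg : (pderiv l V).degreeOf l < V.degreeOf l := by
    rw [← natDegree_toP, ← natDegree_toP, toP_pderiv]
    exact Polynomial.natDegree_derivative_lt hd0
  have hne : pderiv l V ≠ 0 := by
    intro h
    have h1 : Polynomial.derivative (toP l V) = 0 := by rw [← toP_pderiv, h, map_zero]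
    exact hd0 (Polynomial.derivative_eq_zero.mp h1)
  have hF : Irreducible (ZG.e l V) := (MulEquiv.irreducible_iff (ZG.e l)).mpr hV
  have hd1 : (ZG.e l V).natDegree ≠ 0 := by
    rw [ZG.natDegree_e]
    omega
  have hprim := hF.isPrimitive hd1
  set Q := FractionRing (MvPolynomial {i // i ≠ l} K) with hQ
  have hinj : Function.Injective (algebraMap (MvPolynomial {i // i ≠ l} K) Q) :=
    IsFractionRing.injective _ _
  have hFQ : Irreducible ((ZG.e l V).map (algebraMap _ Q)) :=
    hprim.irreducible_iff_irreducible_map_fraction_map.mp hF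
  have hG : ZG.e l (pderiv l V) ≠ 0 := by
    intro h
    apply hne
    exact (ZG.e l).injective (h.trans (map_zero _).symm)
  have hcop : IsCoprime ((ZG.e l V).map (algebraMap _ Q))
      ((ZG.e l (pderiv l V)).map (algebraMap _ Q)) := by
    rw [hFQ.coprime_iff_not_dvd]
    intro hdvd
    have h1 : (ZG.e l (pderiv l V)).map (algebraMap _ Q) = 0 := by
      refine Polynomial.eq_zero_of_dvd_of_natDegree_lt hdvd ?_
      rw [Polynomial.natDegree_map_eq_of_injective hinj,
        Polynomial.natDegree_map_eq_of_injective hinj, ZG.natDegree_e, ZG.natDegree_e]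
      exact hdeg
    exact hG ((Polynomial.map_eq_zero_iff hinj).mp h1)
  have hres := Polynomial.resultant_ne_zero _ _ hcop
  rw [Polynomial.natDegree_map_eq_of_injective hinj,
    Polynomial.natDegree_map_eq_of_injective hinj, Polynomial.resultant_map_map] at hres
  have hres2 : Polynomial.resultant (ZG.e l V) (ZG.e l (pderiv l V)) (V.degreeOf l)
      ((pderiv l V).degreeOf l) ≠ 0 := by
    intro h
    apply hres
    rw [ZG.natDegree_e, ZG.natDegree_e, h, map_zero]
  rw [ZG.toP_eq, ZG.toP_eq, Polynomial.resultant_map_map]
  intro h
  exact hres2 (ZG.φ_inj l (h.trans (map_zero _).symm))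

end

end Pool.Agent.GZ
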