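import Pool.Agent.Lib.MP_c95b3b_ag_GZ.Defs
import Pool.Agent.Lib.MP_c95b3b_ag_GZ.ZD
import Pool.Agent.Lib.MP_c95b3b_ag_GZ.ZF
import Pool.Agent.Lib.MP_c95b3b_ag_GZ.ZG
import Pool.Agent.Lib.MP_c95b3b_ag_AL.ZE

/-! Project G (MP_c95b3b_ag), block GZ, module ZH: the order of the resultant. -/

namespace Pool.Agent.GZ

open Module MvPolynomial
open Pool.Agent.AL (wt Scales)

namespace ZH

section
variable {ι : Type} [Fintype ι] {K : Type} [Field K] (H : ι → ℕ)
  (P : ι → K)

/-- the substitution `X i ↦ X i * T ^ H i` -/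
noncomputable def th : MvPolynomial ι K →ₐ[K] Polynomial (MvPolynomial ι K) :=
  MvPolynomial.aeval fun i => Polynomial.C (X i) * Polynomial.X ^ (H i)

lemma th_monomial (γ : ι →₀ ℕ) (a : K) :
    th H (monomial γ a) = Polynomial.C (monomial γ a) * Polynomial.X ^ (wt H γ) := by
  rw [th, aeval_monomial, Finsupp.prod_fintype _ _ (by simp), monomial_eq,
    Finsupp.prod_fintype _ _ (by simp)]
  simp only [mul_pow, Finset.prod_mul_distrib, map_mul, map_prod, map_pow, ← pow_mul,
    Finset.prod_pow_eq_pow_sum, wt]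
  rw [← mul_assoc]
  congr 2
  refine Finset.sum_congr rfl fun i _ => mul_comm _ _

lemma coeff_th (F : MvPolynomial ι K) (d : ℕ) (γ : ι →₀ ℕ) :
    coeff γ ((th H F).coeff d) = if wt H γ = d then coeff γ F else 0 := by
  classical
  induction F using MvPolynomial.induction_on' with
  | monomial u a =>
    rw [th_monomial, Polynomial.coeff_C_mul_X_pow]
    by_cases h1 : u = γ
    · subst h1
      by_cases h2 : wt H u = d
      · simp [h2]
      · rw [if_neg (fun h => h2 h.symm), if_neg h2]; simp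
    · have h3 : coeff γ (monomial u a) = 0 := by rw [coeff_monomial, if_neg h1]
      rw [h3, ite_self]
      split_ifs
      · exact h3
      · simp
  | add p q hp hq =>
    rw [map_add, Polynomial.coeff_add, coeff_add, hp, hq, coeff_add]
    split_ifs <;> simp

lemma pow_dvd_th (F : MvPolynomial ι K) (m : ℕ) :
    (Polynomial.X : Polynomial (MvPolynomial ι K)) ^ m ∣ th H F ↔
      ∀ γ, wt H γ < m → coeff γ F = 0 := by
  rw [Polynomial.X_pow_dvd_iff]
  constructor
  · intro h γ hγ
    have h1 := coeff_th H F (wt H γ) γ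
    rw [h _ hγ, if_pos rfl] at h1
    rw [← h1, coeff_zero]
  · intro h d hd
    ext γ
    rw [coeff_th, coeff_zero]
    split_ifs with h1
    · exact h γ (h1 ▸ hd)
    · rfl

/-- the Taylor expansion as a ring homomorphism -/
noncomputable def shfHom : MvPolynomial ι K →ₐ[K] MvPolynomial ι K :=
  aeval (fun i => C (P i) + X i)

/-- the composition -/
noncomputable def Psi : MvPolynomial ι K →+* Polynomial (MvPolynomial ι K) :=
  (th H : MvPolynomial ι K →ₐ[K] Polynomial (MvPolynomial ι K)).toRingHom.comp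
    (shfHom P).toRingHom

lemma Psi_apply (f : MvPolynomial ι K) : Psi H P f = th H (shf P f) := rfl

variable [CharZero K]

lemma pow_dvd_Psi {f : MvPolynomial ι K} (hf : f ≠ 0) (m : ℕ) :
    (Polynomial.X : Polynomial (MvPolynomial ι K)) ^ m ∣ Psi H P f ↔ m ≤ ordW H P f := by
  rw [Psi_apply, pow_dvd_th]
  constructor
  · intro h
    exact le_ordW H P hf m h
  · intro h γ hγ
    exact coeff_eq_zero_of_lt_ordW H P f γ (lt_of_lt_of_le hγ h)

lemma Psi_injective : Function.Injective (Psi H P) := by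
  rw [injective_iff_map_eq_zero]
  intro f hf
  by_contra h
  have h1 := (pow_dvd_Psi H P h (ordW H P f + 1)).1 (by rw [hf]; exact dvd_zero _)
  omega

end

section
variable {ι : Type} [Fintype ι] [DecidableEq ι] {K : Type} [Field K] (H : ι → ℕ)
  (P : ι → K)

lemma toP_monomial (l : ι) (γ : ι →₀ ℕ) (a : K) :
    toP l (monomial γ a) = Polynomial.C (monomial (γ.erase l) a) * Polynomial.X ^ (γ l) := by
  rw [toP, aeval_monomial, Finsupp.prod_fintype _ _ (by simp), monomial_eq,
    Finsupp.prod_fintype _ _ (by simp)]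
  have h1 : ∀ i, (if i = l then (Polynomial.X : Polynomial (MvPolynomial ι K))
      else Polynomial.C (X i)) ^ γ i
      = (if i = l then Polynomial.X ^ γ l else 1) *
        Polynomial.C (X i ^ (γ.erase l) i) := by
    intro i
    by_cases h : i = l
    · subst h; simp
    · simp [h, Finsupp.erase_ne h]
  simp only [h1]
  rw [Finset.prod_mul_distrib]
  simp only [Finset.prod_ite_eq', Finset.mem_univ, if_true, map_mul, map_prod]
  rw [Polynomial.C_eq_algebraMap]
  simp only [Polynomial.C_eq_algebraMap]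
  have h2 : (algebraMap K (Polynomial (MvPolynomial ι K))) a
      = (algebraMap (MvPolynomial ι K) (Polynomial (MvPolynomial ι K))) (C a) := by
    rw [← MvPolynomial.algebraMap_eq, ← IsScalarTower.algebraMap_apply]
  rw [h2]
  ring

lemma wt_erase (l : ι) (γ : ι →₀ ℕ) : wt H γ = wt H (γ.erase l) + γ l * H l := by
  unfold wt
  rw [← Finset.add_sum_erase _ _ (Finset.mem_univ l),
    ← Finset.add_sum_erase _ (fun i => (γ.erase l) i * H i) (Finset.mem_univ l)]
  have h1 : ∑ i ∈ Finset.univ.erase l, (γ.erase l) i * H i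
      = ∑ i ∈ Finset.univ.erase l, γ i * H i := by
    refine Finset.sum_congr rfl fun i hi => ?_
    rw [Finsupp.erase_ne (Finset.ne_of_mem_erase hi)]
  rw [h1]
  simp
  ring

lemma dvd_coeff_map (l : ι) (F : MvPolynomial ι K) (mu : ℕ)
    (h : ∀ γ, wt H γ < mu → coeff γ F = 0) (k : ℕ) :
    (Polynomial.X : Polynomial (MvPolynomial ι K)) ^ (mu - k * H l) ∣
      ((toP l F).map (th H : MvPolynomial ι K →ₐ[K] _).toRingHom).coeff k := by
  rw [Polynomial.coeff_map]
  have h1 : (toP l F).coeff k = ∑ γ ∈ F.support,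
      (if k = γ l then monomial (γ.erase l) (coeff γ F) else 0) := by
    conv_lhs => rw [F.as_sum, map_sum]
    rw [Polynomial.finsetSum_coeff]
    refine Finset.sum_congr rfl fun γ _ => ?_
    rw [toP_monomial, Polynomial.coeff_C_mul_X_pow]
  rw [h1, map_sum]
  refine Finset.dvd_sum fun γ hγ => ?_
  split_ifs with h2
  · have h3 : mu ≤ wt H γ := by
      by_contra h4
      exact (mem_support_iff.1 hγ) (h γ (not_le.1 h4))
    have h5 := wt_erase H l γ
    change _ ∣ th H (monomial (γ.erase l) (coeff γ F))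
    rw [th_monomial]
    refine Dvd.dvd.mul_left (pow_dvd_pow _ ?_) _
    rw [h2]
    omega
  · rw [map_zero]
    exact dvd_zero _

lemma key (l : ι) (f : MvPolynomial ι K) :
    ((toP l f).map (Psi H P)).taylor (Polynomial.C (C (P l)))
      = (toP l (shf P f)).map (th H : MvPolynomial ι K →ₐ[K] _).toRingHom := by
  have h : ((Polynomial.taylorAlgHom (Polynomial.C (C (P l)) :
        Polynomial (MvPolynomial ι K))).toRingHom.comp
          (Polynomial.mapRingHom (Psi H P))).comp (toP l).toRingHom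
      = (Polynomial.mapRingHom (th H : MvPolynomial ι K →ₐ[K] _).toRingHom).comp
        ((toP l : MvPolynomial ι K →ₐ[K] _).toRingHom.comp (shfHom P).toRingHom) := by
    refine MvPolynomial.ringHom_ext (fun r => ?_) (fun i => ?_)
    · simp [Psi, shfHom, th]
    · by_cases hi : i = l
      · subst hi
        simp [toP, toP, shfHom, th]
        ring
      · simp [toP, toP, shfHom, th, Psi, hi]
  exact congrArg (fun φ => φ f) h

end

end ZH

section
variable {ι : Type} [Fintype ι] [DecidableEq ι] {K : Type} [Field K] [CharZero K] (H : ι → ℕ)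
  (P : ι → K)

theorem exists_cord (l : ι) {f : MvPolynomial ι K} (hf : f ≠ 0) :
    ∃ k, (toP l f).coeff k ≠ 0 ∧ ordW H P ((toP l f).coeff k) = cord H P l f := by
  have h1 : toP l f ≠ 0 := by
    intro h
    have := eval_toP l f
    rw [h, Polynomial.eval_zero] at this
    exact hf this.symm
  have h2 : {m | ∃ k, (toP l f).coeff k ≠ 0 ∧ m = ordW H P ((toP l f).coeff k)}.Nonempty := by
    by_contra h3
    rw [Set.not_nonempty_iff_eq_empty] at h3
    apply h1
    ext1 k
    by_contra h4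
    have : ordW H P ((toP l f).coeff k) ∈
        {m | ∃ k, (toP l f).coeff k ≠ 0 ∧ m = ordW H P ((toP l f).coeff k)} :=
      ⟨k, by simpa using h4, rfl⟩
    rw [h3] at this
    exact this
  obtain ⟨k, hk1, hk2⟩ := Nat.sInf_mem h2
  exact ⟨k, hk1, hk2.symm⟩

namespace ZH

lemma cord_le (l : ι) (f : MvPolynomial ι K) (k : ℕ) (h : (toP l f).coeff k ≠ 0) :
    cord H P l f ≤ ordW H P ((toP l f).coeff k) := Nat.sInf_le ⟨k, h, rfl⟩

lemma dvd_taylor_coeff {D : Type} [CommRing D] (T r : D) (F : Polynomial D)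
    (h : ∀ q, T ∣ F.coeff q) (k : ℕ) : T ∣ (F.taylor r).coeff k := by
  rw [Polynomial.taylor_coeff, Polynomial.eval_eq_sum_range]
  refine Finset.dvd_sum fun q _ => Dvd.dvd.mul_right ?_ _
  rw [Polynomial.hasseDeriv_coeff]
  exact Dvd.dvd.mul_left (h _) _

/-- the shifted polynomial -/
noncomputable def F1 (l : ι) (f : MvPolynomial ι K) :
    Polynomial (Polynomial (MvPolynomial ι K)) :=
  ((toP l f).map (Psi H P)).taylor (Polynomial.C (C (P l)))

lemma F1_cord (l : ι) {f : MvPolynomial ι K} (k : ℕ) :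
    (Polynomial.X : Polynomial (MvPolynomial ι K)) ^ (cord H P l f) ∣ (F1 H P l f).coeff k := by
  refine dvd_taylor_coeff _ _ _ (fun q => ?_) k
  rw [Polynomial.coeff_map]
  by_cases h : (toP l f).coeff q = 0
  · rw [h, map_zero]; exact dvd_zero _
  · exact (pow_dvd_Psi H P h _).2 (cord_le H P l f q h)

lemma F1_ord (l : ι) {f : MvPolynomial ι K} (k : ℕ) :
    (Polynomial.X : Polynomial (MvPolynomial ι K)) ^ (ordW H P f - k * H l) ∣
      (F1 H P l f).coeff k := by
  rw [F1, key]
  exact dvd_coeff_map H l _ _ (fun γ hγ => coeff_eq_zero_of_lt_ordW H P f γ hγ) k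

lemma F1_natDegree (l : ι) (f : MvPolynomial ι K) : (F1 H P l f).natDegree = f.degreeOf l := by
  rw [F1, Polynomial.natDegree_taylor,
    Polynomial.natDegree_map_eq_of_injective (Psi_injective H P), natDegree_toP]

lemma le_deg (l : ι) {f : MvPolynomial ι K} (hf : f ≠ 0) :
    ordW H P f ≤ cord H P l f + f.degreeOf l * H l := by
  by_contra hlt
  push Not at hlt
  obtain ⟨q, hq1, hq2⟩ := exists_cord H P l hf
  have h1 : ∀ k, (Polynomial.X : Polynomial (MvPolynomial ι K)) ^ (cord H P l f + 1) ∣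
      (F1 H P l f).coeff k := by
    intro k
    by_cases hk : k ≤ f.degreeOf l
    · refine (pow_dvd_pow _ ?_).trans (F1_ord H P l k)
      have := Nat.mul_le_mul_right (H l) hk
      omega
    · rw [Polynomial.coeff_eq_zero_of_natDegree_lt (by rw [F1_natDegree]; omega)]
      exact dvd_zero _
  have h2 : (F1 H P l f).taylor (-(Polynomial.C (C (P l)))) = (toP l f).map (Psi H P) := by
    rw [F1, Polynomial.taylor_taylor]
    simp
  have h3 := dvd_taylor_coeff _ (-(Polynomial.C (C (P l)))) _ h1 q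
  rw [h2, Polynomial.coeff_map, pow_dvd_Psi H P hq1] at h3
  omega

lemma resultant_F1 (l : ι) (f g : MvPolynomial ι K) :
    (F1 H P l f).resultant (F1 H P l g) (f.degreeOf l) (g.degreeOf l)
      = Psi H P ((toP l f).resultant (toP l g) (f.degreeOf l) (g.degreeOf l)) := by
  rw [← Polynomial.resultant_map_map]
  have h1 : ∀ f : MvPolynomial ι K, ((toP l f).map (Psi H P)).natDegree = f.degreeOf l := fun f => by
    rw [Polynomial.natDegree_map_eq_of_injective (Psi_injective H P), natDegree_toP]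
  have h2 := Polynomial.resultant_taylor ((toP l f).map (Psi H P)) ((toP l g).map (Psi H P))
    (Polynomial.C (C (P l)))
  rw [Polynomial.natDegree_taylor, Polynomial.natDegree_taylor, h1, h1] at h2
  exact h2

/-- the choice of the parameters -/
lemma choice (x x1 Hl a b : ℕ) (hH : 0 < Hl) (hx : 0 < x) (hx1 : 0 < x1) (ha : x ≤ a * Hl)
    (hb : x1 ≤ b * Hl) : ∃ A B h : ℕ, A ≤ a ∧ B ≤ b ∧ (∀ k < A, (A - k) * h + k * Hl ≤ x) ∧
      (∀ k < B, (B - k) * h + k * Hl ≤ x1) ∧ x * x1 ≤ 4 * Hl * (A * B * h) := by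
  have hdiv : ∀ y : ℕ, Hl ≤ y → 1 ≤ y / Hl ∧ y / Hl * Hl ≤ y ∧ y ≤ 2 * (y / Hl) * Hl := by
    intro y hy
    have h1 : 1 ≤ y / Hl := (Nat.one_le_div_iff hH).2 hy
    have h2 := Nat.div_mul_le_self y Hl
    have h3 := Nat.lt_div_mul_add hH (a := y)
    refine ⟨h1, h2, ?_⟩
    nlinarith
  have ha1 : 1 ≤ a := by
    by_contra h
    have : a = 0 := by omega
    subst this
    omega
  have hb1 : 1 ≤ b := by
    by_contra h
    have : b = 0 := by omega
    subst this
    omega
  have hle : ∀ y c : ℕ, y ≤ c * Hl → y / Hl ≤ c := fun y c h =>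
    Nat.div_le_of_le_mul (by rw [mul_comm]; exact h)
  have hone : ∀ y h : ℕ, h ≤ y → ∀ k < 1, (1 - k) * h + k * Hl ≤ y := by
    intro y h hy k hk
    have : k = 0 := by omega
    subst this
    simpa using hy
  have hmany : ∀ y h : ℕ, h ≤ Hl → Hl ≤ y → ∀ k < y / Hl, (y / Hl - k) * h + k * Hl ≤ y := by
    intro y h hh hy k hk
    have e1 : (y / Hl - k) * h ≤ (y / Hl - k) * Hl := Nat.mul_le_mul_left _ hh
    have e2 : (y / Hl - k) * Hl + k * Hl = y / Hl * Hl := by
      rw [← Nat.add_mul]; congr 1; omega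
    have e3 := Nat.div_mul_le_self y Hl
    omega
  rcases Nat.lt_or_ge x Hl with h1 | h1
  · rcases Nat.lt_or_ge x1 Hl with h2 | h2
    · refine ⟨1, 1, min x x1, ha1, hb1, hone _ _ (min_le_left _ _), hone _ _ (min_le_right _ _),
        ?_⟩
      rw [one_mul, one_mul]
      rcases le_total x x1 with h3 | h3
      · rw [min_eq_left h3]; nlinarith
      · rw [min_eq_right h3]; nlinarith
    · obtain ⟨d1, d2, d3⟩ := hdiv x1 h2
      refine ⟨1, x1 / Hl, x, ha1, hle _ _ hb, hone _ _ le_rfl, hmany _ _ h1.le h2, ?_⟩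
      nlinarith [Nat.mul_le_mul_left x d3]
  · obtain ⟨c1, c2, c3⟩ := hdiv x h1
    rcases Nat.lt_or_ge x1 Hl with h2 | h2
    · refine ⟨x / Hl, 1, x1, hle _ _ ha, hb1, hmany _ _ h2.le h1, hone _ _ le_rfl, ?_⟩
      nlinarith [Nat.mul_le_mul_left x1 c3]
    · obtain ⟨d1, d2, d3⟩ := hdiv x1 h2
      refine ⟨x / Hl, x1 / Hl, Hl, hle _ _ ha, hle _ _ hb, hmany _ _ le_rfl h1,
        hmany _ _ le_rfl h2, ?_⟩
      calc x * x1 ≤ (2 * (x / Hl) * Hl) * (2 * (x1 / Hl) * Hl) := Nat.mul_le_mul c3 d3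
        _ = 4 * Hl * (x / Hl * (x1 / Hl) * Hl) := by ring

end ZH

theorem ordW_resultant (l : ι) (hl : 0 < H l) (f g : MvPolynomial ι K) (hf : f ≠ 0) (hg : g ≠ 0)
    (h1 : cord H P l f < ordW H P f) (h2 : cord H P l g < ordW H P g)
    (hR : (toP l f).resultant (toP l g) (f.degreeOf l) (g.degreeOf l) ≠ 0) :
    ((ordW H P f : ℝ) - cord H P l f) * ((ordW H P g : ℝ) - cord H P l g) ≤
      4 * H l * ordW H P ((toP l f).resultant (toP l g) (f.degreeOf l) (g.degreeOf l)) := by
  obtain ⟨A, B, h, hA, hB, hAh, hBh, hfin⟩ := ZH.choice (ordW H P f - cord H P l f)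
    (ordW H P g - cord H P l g) (H l) (f.degreeOf l) (g.degreeOf l) hl (by omega) (by omega)
    (by have := ZH.le_deg H P l hf; omega) (by have := ZH.le_deg H P l hg; omega)
  have hc : ∀ (f : MvPolynomial ι K) (A : ℕ), cord H P l f < ordW H P f →
      (∀ k < A, (A - k) * h + k * H l ≤ ordW H P f - cord H P l f) → ∀ k,
      (Polynomial.X : Polynomial (MvPolynomial ι K)) ^ (cord H P l f + (A - k) * h) ∣
        (ZH.F1 H P l f).coeff k := by
    intro f A hlt hAh k
    rcases Nat.lt_or_ge k A with hk | hk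
    · refine (pow_dvd_pow _ ?_).trans (ZH.F1_ord H P l k)
      have e1 := hAh k hk
      omega
    · rw [Nat.sub_eq_zero_of_le hk, Nat.zero_mul, Nat.add_zero]
      exact ZH.F1_cord H P l k
  have hdvd := Pool.Agent.AL.sylvester_dvd (Polynomial.X : Polynomial (MvPolynomial ι K)) Polynomial.X_ne_zero
    (ZH.F1 H P l f) (ZH.F1 H P l g) (f.degreeOf l) (g.degreeOf l) A B (cord H P l f)
    (cord H P l g) h hA hB (hc f A h1 hAh) (hc g B h2 hBh)
  rw [ZH.resultant_F1, ZH.pow_dvd_Psi H P hR] at hdvd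
  have h3 : A * B * h ≤
      ordW H P ((toP l f).resultant (toP l g) (f.degreeOf l) (g.degreeOf l)) := by omega
  have h4 : (ordW H P f - cord H P l f) * (ordW H P g - cord H P l g) ≤
      4 * H l * ordW H P ((toP l f).resultant (toP l g) (f.degreeOf l) (g.degreeOf l)) :=
    hfin.trans (Nat.mul_le_mul_left _ h3)
  have h5 : (((ordW H P f - cord H P l f) * (ordW H P g - cord H P l g) : ℕ) : ℝ) ≤
      ((4 * H l * ordW H P ((toP l f).resultant (toP l g) (f.degreeOf l) (g.degreeOf l)) : ℕ) :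
        ℝ) := by exact_mod_cast h4
  push_cast [Nat.cast_sub h1.le, Nat.cast_sub h2.le] at h5
  exact h5

end

end Pool.Agent.GZ
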