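import Pool.Agent.Lib.MP_c95b3b_ag_GZ.Defs
import Pool.Agent.Lib.MP_c95b3b_ag_GZ.ZA
import Pool.Agent.Lib.MP_c95b3b_ag_GZ.ZD
import Pool.Agent.Lib.MP_c95b3b_ag_GZ.ZF
import Pool.Agent.Lib.MP_c95b3b_ag_GZ.ZG
import Pool.Agent.Lib.MP_c95b3b_ag_GZ.ZH

/-! Project G (MP_c95b3b_ag), block GZ, module ZI: one step of the descent, and the factor. -/

namespace Pool.Agent.GZ

open Module MvPolynomial
open Pool.Agent.AL (wt Scales)

namespace ZI

section
variable {ι K : Type} [DecidableEq ι] [Field K]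

lemma mem_vars_iff (p : MvPolynomial ι K) (i : ι) :
    i ∈ p.vars ↔ 0 < p.degreeOf i := by
  rw [vars_def, degreeOf_def, Multiset.mem_toFinset, Multiset.count_pos]

lemma vars_of_dvd {p f : MvPolynomial ι K} (hf : f ≠ 0) (h : p ∣ f) :
    p.vars ⊆ f.vars := by
  obtain ⟨q, rfl⟩ := h
  intro i hi
  rw [mem_vars_iff] at hi ⊢
  rw [degreeOf_mul_eq (left_ne_zero_of_mul hf) (right_ne_zero_of_mul hf)]
  omega

variable [Fintype ι] (S : SzF ι K) (H : ι → ℕ) (h0 : ℝ)

omit [DecidableEq ι] in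
lemma degpart_nonneg (f : MvPolynomial ι K) : 0 ≤ ∑ i, (H i : ℝ) * f.degreeOf i :=
  Finset.sum_nonneg fun i _ => by positivity

lemma sz_nonneg (hh : 1 ≤ h0) {f : MvPolynomial ι K} (hf : f ≠ 0) : 0 ≤ sz S H h0 f := by
  have h1 := S.nonneg f hf
  have h2 := degpart_nonneg H f
  have h3 : 0 ≤ h0 * S.L f := mul_nonneg (by linarith) h1
  unfold sz
  linarith

lemma sz_mono (hh : 1 ≤ h0) {f g : MvPolynomial ι K}
    (h1 : ∀ i, f.degreeOf i ≤ g.degreeOf i) (h2 : S.L f ≤ S.L g) : sz S H h0 f ≤ sz S H h0 g := by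
  unfold sz
  have h3 : ∑ i, (H i : ℝ) * f.degreeOf i ≤ ∑ i, (H i : ℝ) * g.degreeOf i :=
    Finset.sum_le_sum fun i _ => mul_le_mul_of_nonneg_left (by exact_mod_cast h1 i) (by positivity)
  have h5 : h0 * S.L f ≤ h0 * S.L g :=
    mul_le_mul_of_nonneg_left h2 (by linarith)
  linarith

lemma le_sz (hh : 1 ≤ h0) {f : MvPolynomial ι K} (hf : f ≠ 0) (l : ι) :
    (H l : ℝ) * f.degreeOf l ≤ sz S H h0 f := by
  have h1 := S.nonneg f hf
  have h3 : 0 ≤ h0 * S.L f := mul_nonneg (by linarith) h1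
  have h2 : (H l : ℝ) * f.degreeOf l ≤ ∑ i, (H i : ℝ) * f.degreeOf i :=
    Finset.single_le_sum (f := fun i => (H i : ℝ) * f.degreeOf i)
      (fun i _ => by positivity) (Finset.mem_univ l)
  unfold sz
  linarith

end

end ZI

section
variable {ι : Type} [Fintype ι] [DecidableEq ι] {K : Type} [Field K] [CharZero K] (S : SzF ι K)
  (H : ι → ℕ) (P : ι → K) (h0 : ℝ)

theorem exists_factor (hh : 1 ≤ h0) (hH : ∀ i, h0 ≤ H i) (θ : ℝ) (hθ : 0 < θ)
    (f : MvPolynomial ι K) (hf : f ≠ 0) (ho : 0 < ordW H P f) (h : θ * sz S H h0 f ≤ ordW H P f) :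
    ∃ V : MvPolynomial ι K, Irreducible V ∧ V.vars.Nonempty ∧ V.vars ⊆ f.vars ∧
      0 < ordW H P V ∧ θ / 4 * sz S H h0 V ≤ ordW H P V := by
  obtain ⟨s, hs, u, hu⟩ := UniqueFactorizationMonoid.exists_prime_factors f hf
  obtain ⟨L, hL⟩ : ∃ L : List (MvPolynomial ι K), L = s.toList := ⟨_, rfl⟩
  have hLp : ∀ i : Fin L.length, Prime (L.get i) := by
    intro i
    apply hs
    rw [← Multiset.mem_toList, ← hL]
    exact List.get_mem _ _
  obtain ⟨V, hVn, hVs⟩ : ∃ V : Option (Fin L.length) → MvPolynomial ι K,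
      V none = (u : MvPolynomial ι K) ∧ ∀ i, V (some i) = L.get i :=
    ⟨fun o => o.elim (u : MvPolynomial ι K) (fun i => L.get i), rfl, fun _ => rfl⟩
  have hprod : ∏ k, V k = f := by
    rw [Fintype.prod_option, hVn]
    simp only [hVs]
    have h1 : ∏ i, L.get i = s.prod := by
      rw [← List.prod_ofFn, List.ofFn_get, hL, Multiset.prod_toList]
    rw [h1, mul_comm]
    exact hu
  have hV0 : ∀ k ∈ (Finset.univ : Finset (Option (Fin L.length))), V k ≠ 0 := by
    intro k _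
    cases k with
    | none => rw [hVn]; exact u.ne_zero
    | some i => rw [hVs]; exact (hLp i).ne_zero
  have hgel := S.gel _ Finset.univ V hV0
  rw [hprod] at hgel
  have hord : ∑ k, ordW H P (V k) = ordW H P f := by
    rw [← ordW_prod H P Finset.univ V hV0, hprod]
  have hdeg : ∀ i, ∑ k, (V k).degreeOf i = f.degreeOf i := by
    intro i
    rw [← degreeOf_prod_eq Finset.univ V hV0, hprod]
  -- the sum of the sizes
  have hsz : ∑ k, sz S H h0 (V k) ≤ 4 * sz S H h0 f := by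
    have e1 : ∑ k, sz S H h0 (V k) = ∑ i, (H i : ℝ) * f.degreeOf i +
        h0 * ∑ k, S.L (V k) := by
      unfold sz
      rw [Finset.sum_add_distrib, ← Finset.mul_sum, Finset.sum_comm]
      congr 1
      refine Finset.sum_congr rfl fun i _ => ?_
      rw [← Finset.mul_sum, ← hdeg i]
      push_cast
      rfl
    have e2 : h0 * ∑ k, S.L (V k) ≤ h0 * (S.L f +
        2 * Real.log 2 * ∑ i, (f.degreeOf i : ℝ)) :=
      mul_le_mul_of_nonneg_left hgel (by linarith)
    have e3 : h0 * ∑ i, (f.degreeOf i : ℝ) ≤ ∑ i, (H i : ℝ) * f.degreeOf i := by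
      rw [Finset.mul_sum]
      exact Finset.sum_le_sum fun i _ => mul_le_mul_of_nonneg_right (hH i) (by positivity)
    have e4 : Real.log 2 ≤ 1 := by
      have := Real.log_two_lt_d9
      linarith
    have e5 : 0 ≤ Real.log 2 := Real.log_nonneg (by norm_num)
    have e6 := S.nonneg f hf
    have e7 := ZI.degpart_nonneg H f
    have e8 : 0 ≤ h0 * S.L f := mul_nonneg (by linarith) e6
    rw [e1]
    unfold sz
    have e9 : h0 * (2 * Real.log 2 * ∑ i, (f.degreeOf i : ℝ)) ≤
        2 * ∑ i, (H i : ℝ) * f.degreeOf i := by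
      have e10 : h0 * (2 * Real.log 2 * ∑ i, (f.degreeOf i : ℝ))
          = 2 * Real.log 2 * (h0 * ∑ i, (f.degreeOf i : ℝ)) := by ring
      rw [e10]
      calc 2 * Real.log 2 * (h0 * ∑ i, (f.degreeOf i : ℝ))
          ≤ 2 * Real.log 2 * ∑ i, (H i : ℝ) * f.degreeOf i :=
            mul_le_mul_of_nonneg_left e3 (by positivity)
        _ ≤ 2 * 1 * ∑ i, (H i : ℝ) * f.degreeOf i :=
            mul_le_mul_of_nonneg_right (by linarith) e7
        _ = 2 * ∑ i, (H i : ℝ) * f.degreeOf i := by ring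
    nlinarith
  -- a good factor
  have hgood : ∃ k, 0 < ordW H P (V k) ∧ θ / 4 * sz S H h0 (V k) ≤ ordW H P (V k) := by
    by_contra hcon
    push Not at hcon
    have h1 : ∀ k, (ordW H P (V k) : ℝ) ≤ θ / 4 * sz S H h0 (V k) := by
      intro k
      rcases Nat.eq_zero_or_pos (ordW H P (V k)) with h2 | h2
      · rw [h2]
        have := ZI.sz_nonneg S H h0 hh (hV0 k (Finset.mem_univ k))
        push_cast
        positivity
      · exact (hcon k h2).le
    obtain ⟨k, hk⟩ : ∃ k, 0 < ordW H P (V k) := by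
      by_contra h3
      push Not at h3
      have h4 : ∑ k, ordW H P (V k) = 0 := Finset.sum_eq_zero fun k _ => by
        have := h3 k; omega
      omega
    have h5 : ∑ k, (ordW H P (V k) : ℝ) < ∑ k, θ / 4 * sz S H h0 (V k) :=
      Finset.sum_lt_sum (fun k _ => h1 k) ⟨k, Finset.mem_univ k, hcon k hk⟩
    rw [← Finset.mul_sum] at h5
    have h6 : (∑ k, (ordW H P (V k) : ℝ)) = ordW H P f := by
      rw [← hord]; push_cast; rfl
    rw [h6] at h5
    have h7 : θ / 4 * ∑ k, sz S H h0 (V k) ≤ θ / 4 * (4 * sz S H h0 f) :=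
      mul_le_mul_of_nonneg_left hsz (by positivity)
    linarith
  obtain ⟨k, hk1, hk2⟩ := hgood
  have hunit : ordW H P (u : MvPolynomial ι K) = 0 := by
    have h1 := ordW_mul H P (f := (u : MvPolynomial ι K)) (g := ((u⁻¹ : (MvPolynomial ι K)ˣ) :
      MvPolynomial ι K)) u.ne_zero (Units.ne_zero _)
    rw [Units.mul_inv] at h1
    have h2 := ordW_C H P (1 : K)
    rw [C_1] at h2
    omega
  cases k with
  | none =>
    rw [hVn, hunit] at hk1
    exact absurd hk1 (lt_irrefl 0)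
  | some i =>
    refine ⟨V (some i), ?_, ?_, ?_, hk1, hk2⟩
    · rw [hVs]; exact (hLp i).irreducible
    · rw [Finset.nonempty_iff_ne_empty]
      intro h1
      rw [vars_eq_empty_iff_eq_C] at h1
      rw [h1, ordW_C] at hk1
      exact absurd hk1 (lt_irrefl 0)
    · apply ZI.vars_of_dvd hf
      rw [← hprod]
      exact Finset.dvd_prod_of_mem V (Finset.mem_univ _)

theorem descent (hh : 1 ≤ h0) (hH : ∀ i, h0 ≤ H i) (θ : ℝ) (hθ : 0 < θ) (hθ1 : θ ≤ 1)
    (V : MvPolynomial ι K) (hV : Irreducible V) (ho : 0 < ordW H P V)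
    (h : θ * sz S H h0 V ≤ ordW H P V) (l : ι) (hl : l ∈ V.vars) (hl2 : 2 * H l ≤ ordW H P V) :
    ∃ R : MvPolynomial ι K, R ≠ 0 ∧ R.vars ⊆ V.vars.erase l ∧ 0 < ordW H P R ∧
      θ ^ 2 / 100 * sz S H h0 R ≤ ordW H P R := by
  have hV0 : V ≠ 0 := hV.ne_zero
  obtain ⟨hb, hV'0⟩ := degreeOf_pderiv_self V l hl
  have hordd := ordW_pderiv H P V l hV'0
  have hvarsd := vars_pderiv V l
  have hl1d := S.der l V hV'0
  have hdegd := fun i => degreeOf_pderiv_le V l i
  have hRne := resultant_ne_zero l V hV hl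
  generalize pderiv l V = V' at *
  have hHl : (1 : ℝ) ≤ H l := hh.trans (hH l)
  have hHl0 : 0 < H l := by
    have : (0 : ℝ) < H l := by linarith
    exact_mod_cast this
  obtain ⟨a, ha⟩ : ∃ a, a = V.degreeOf l := ⟨_, rfl⟩
  obtain ⟨b, hbb⟩ : ∃ b, b = V'.degreeOf l := ⟨_, rfl⟩
  have ha1 : 1 ≤ a := by omega
  have haR : (1 : ℝ) ≤ a := by exact_mod_cast ha1
  have hszV0 := ZI.sz_nonneg S H h0 hh hV0
  have hHa : (H l : ℝ) * a ≤ sz S H h0 V := by rw [ha]; exact ZI.le_sz S H h0 hh hV0 l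
  have hloga : Real.log a ≤ a := (Real.log_le_sub_one_of_pos (by linarith)).trans (by linarith)
  have h0a : h0 * Real.log a ≤ (H l : ℝ) * a := by
    have e1 : h0 * Real.log a ≤ h0 * a := mul_le_mul_of_nonneg_left hloga (by linarith)
    have e2 : h0 * a ≤ (H l : ℝ) * a := mul_le_mul_of_nonneg_right (hH l) (by linarith)
    linarith
  have hlogV' : S.L V' ≤ Real.log a + S.L V := by
    rw [ha]
    exact hl1d
  have hszV' : sz S H h0 V' ≤ 2 * sz S H h0 V := by
    have e1 : ∑ i, (H i : ℝ) * V'.degreeOf i ≤ ∑ i, (H i : ℝ) * V.degreeOf i :=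
      Finset.sum_le_sum fun i _ =>
        mul_le_mul_of_nonneg_left (by exact_mod_cast hdegd i) (by positivity)
    have e2 : h0 * S.L V' ≤ h0 * (Real.log a + S.L V) :=
      mul_le_mul_of_nonneg_left hlogV' (by linarith)
    have e3 : sz S H h0 V = ∑ i, (H i : ℝ) * V.degreeOf i + h0 * S.L V := rfl
    have e4 : sz S H h0 V' = ∑ i, (H i : ℝ) * V'.degreeOf i + h0 * S.L V' := rfl
    rw [mul_add] at e2
    linarith
  have hmu' : (ordW H P V : ℝ) ≤ 2 * ordW H P V' := by
    have : ordW H P V ≤ 2 * ordW H P V' := by omega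
    exact_mod_cast this
  have hmupos : (0 : ℝ) < ordW H P V := by exact_mod_cast ho
  have hθ2 : θ ^ 2 ≤ θ := by nlinarith
  by_cases c1 : ordW H P V ≤ 2 * cord H P l V
  · -- a coefficient of `V`
    obtain ⟨k, hk1, hk2⟩ := exists_cord H P l hV0
    refine ⟨(toP l V).coeff k, hk1, vars_coeff_toP l V k, by omega, ?_⟩
    have e1 := ZI.sz_mono S H h0 hh (degreeOf_coeff_toP l V k) (S.cf l V k hk1)
    have e2 : (ordW H P V : ℝ) ≤ 2 * ordW H P ((toP l V).coeff k) := by
      rw [hk2]; exact_mod_cast c1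
    have e3 := ZI.sz_nonneg S H h0 hh hk1
    have e4 : θ ^ 2 * sz S H h0 ((toP l V).coeff k) ≤ θ * sz S H h0 V :=
      mul_le_mul hθ2 e1 e3 hθ.le
    linarith
  by_cases c2 : ordW H P V' ≤ 2 * cord H P l V'
  · -- a coefficient of `V'`
    obtain ⟨k, hk1, hk2⟩ := exists_cord H P l hV'0
    have e0 : 0 < cord H P l V' := by omega
    refine ⟨(toP l V').coeff k, hk1,
      (vars_coeff_toP l V' k).trans (Finset.erase_subset_erase _ hvarsd), by omega, ?_⟩
    have e1 := ZI.sz_mono S H h0 hh (degreeOf_coeff_toP l V' k) (S.cf l V' k hk1)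
    have e2 : (ordW H P V' : ℝ) ≤ 2 * ordW H P ((toP l V').coeff k) := by
      rw [hk2]; exact_mod_cast c2
    have e3 := ZI.sz_nonneg S H h0 hh hk1
    have e4 : θ ^ 2 * sz S H h0 ((toP l V').coeff k) ≤ θ * (2 * sz S H h0 V) :=
      mul_le_mul hθ2 (e1.trans hszV') e3 hθ.le
    linarith
  -- the resultant
  push Not at c1 c2
  have hres := ordW_resultant H P l hHl0 V V' hV0 hV'0 (by omega) (by omega) hRne
  have hvarsR := vars_resultant (toP l V) (toP l V') (V.degreeOf l) (V'.degreeOf l)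
    (V.vars.erase l) (vars_coeff_toP l V)
    (fun k => (vars_coeff_toP l V' k).trans (Finset.erase_subset_erase _ hvarsd))
  have hdegR := fun i => degreeOf_resultant (toP l V) (toP l V') (V.degreeOf l) (V'.degreeOf l) i
    (V.degreeOf i) (V'.degreeOf i) (fun k => degreeOf_coeff_toP l V k i)
    (fun k => degreeOf_coeff_toP l V' k i)
  have hl1R := S.res l V V' (V.degreeOf l) (V'.degreeOf l) hRne
  rw [← ha, ← hbb] at hres hvarsR hl1R hRne
  simp only [← ha, ← hbb] at hdegR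
  generalize (toP l V).resultant (toP l V') a b = R at *
  have hba : b ≤ a := by omega
  have hbaR : (b : ℝ) ≤ a := by exact_mod_cast hba
  -- the order of `R`
  have hmu2 : (ordW H P V : ℝ) ^ 2 ≤ 32 * H l * ordW H P R := by
    have e1 : (ordW H P V : ℝ) / 2 ≤ (ordW H P V : ℝ) - cord H P l V := by
      have : (2 : ℝ) * cord H P l V < ordW H P V := by exact_mod_cast c1
      linarith
    have e2 : (ordW H P V : ℝ) / 4 ≤ (ordW H P V' : ℝ) - cord H P l V' := by
      have : (2 : ℝ) * cord H P l V' < ordW H P V' := by exact_mod_cast c2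
      linarith
    have e3 : (ordW H P V : ℝ) / 2 * ((ordW H P V : ℝ) / 4) ≤
        ((ordW H P V : ℝ) - cord H P l V) * ((ordW H P V' : ℝ) - cord H P l V') :=
      mul_le_mul e1 e2 (by positivity) (by linarith)
    nlinarith
  -- the size of `R`
  have hszR : sz S H h0 R ≤ 3 * a * sz S H h0 V := by
    have e1 : ∑ i, (H i : ℝ) * R.degreeOf i ≤ (a + b) * ∑ i, (H i : ℝ) * V.degreeOf i := by
      rw [Finset.mul_sum]
      refine Finset.sum_le_sum fun i _ => ?_
      have e2 : (R.degreeOf i : ℝ) ≤ (a + b) * V.degreeOf i := by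
        have e3 : R.degreeOf i ≤ (a + b) * V.degreeOf i := by
          calc R.degreeOf i ≤ b * V.degreeOf i + a * V'.degreeOf i := hdegR i
            _ ≤ b * V.degreeOf i + a * V.degreeOf i :=
                Nat.add_le_add_left (Nat.mul_le_mul_left _ (hdegd i)) _
            _ = (a + b) * V.degreeOf i := by ring
        exact_mod_cast e3
      calc (H i : ℝ) * R.degreeOf i ≤ (H i : ℝ) * ((a + b) * V.degreeOf i) :=
            mul_le_mul_of_nonneg_left e2 (by positivity)
        _ = (a + b) * ((H i : ℝ) * V.degreeOf i) := by ring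
    have e4 : S.L R ≤ b * S.L V + a * S.L V' := hl1R
    have e6 : h0 * S.L R ≤ (a + b) * (h0 * S.L V) + a * (H l * a) := by
      have e7 : (a : ℝ) * S.L V' ≤ a * (Real.log a + S.L V) :=
        mul_le_mul_of_nonneg_left hlogV' (by linarith)
      have e8 : h0 * S.L R ≤ h0 * (b * S.L V +
          a * (Real.log a + S.L V)) :=
        mul_le_mul_of_nonneg_left (e4.trans (by linarith)) (by linarith)
      have e9 : (a : ℝ) * (h0 * Real.log a) ≤ a * (H l * a) :=
        mul_le_mul_of_nonneg_left h0a (by linarith)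
      have e10 : h0 * (b * S.L V + a * (Real.log a + S.L V))
          = (a + b) * (h0 * S.L V) + a * (h0 * Real.log a) := by ring
      linarith
    have e11 : sz S H h0 R = ∑ i, (H i : ℝ) * R.degreeOf i + h0 * S.L R := rfl
    have e12 : sz S H h0 V = ∑ i, (H i : ℝ) * V.degreeOf i + h0 * S.L V := rfl
    have e13 : (a : ℝ) * (H l * a) ≤ a * sz S H h0 V := mul_le_mul_of_nonneg_left hHa (by linarith)
    have e14 : ((a : ℝ) + b) * sz S H h0 V ≤ (2 * a) * sz S H h0 V :=
      mul_le_mul_of_nonneg_right (by linarith) hszV0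
    have e15 : ((a : ℝ) + b) * sz S H h0 V = (a + b) * ∑ i, (H i : ℝ) * V.degreeOf i +
        (a + b) * (h0 * S.L V) := by rw [e12]; ring
    linarith
  have hszR0 := ZI.sz_nonneg S H h0 hh hRne
  have hfin1 : θ ^ 2 * (H l * sz S H h0 R) ≤ 96 * (H l * ordW H P R) := by
    have e1 : (H l : ℝ) * sz S H h0 R ≤ 3 * (sz S H h0 V) ^ 2 := by
      calc (H l : ℝ) * sz S H h0 R ≤ H l * (3 * a * sz S H h0 V) :=
            mul_le_mul_of_nonneg_left hszR (by positivity)
        _ = 3 * (H l * a) * sz S H h0 V := by ring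
        _ ≤ 3 * sz S H h0 V * sz S H h0 V :=
            mul_le_mul_of_nonneg_right (mul_le_mul_of_nonneg_left hHa (by norm_num)) hszV0
        _ = 3 * (sz S H h0 V) ^ 2 := by ring
    have e2 : (θ * sz S H h0 V) ^ 2 ≤ (ordW H P V : ℝ) ^ 2 :=
      pow_le_pow_left₀ (mul_nonneg hθ.le hszV0) h 2
    have e3 : θ ^ 2 * (H l * sz S H h0 R) ≤ θ ^ 2 * (3 * (sz S H h0 V) ^ 2) :=
      mul_le_mul_of_nonneg_left e1 (by positivity)
    nlinarith
  have hfin2 : θ ^ 2 * sz S H h0 R ≤ 96 * ordW H P R := by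
    have e1 : (H l : ℝ) * (θ ^ 2 * sz S H h0 R) ≤ H l * (96 * ordW H P R) := by linarith
    exact le_of_mul_le_mul_left e1 (by linarith)
  have hRpos : 0 < ordW H P R := by
    rw [Nat.pos_iff_ne_zero]
    intro h1
    rw [h1] at hmu2
    push_cast at hmu2
    nlinarith
  refine ⟨R, hRne, hvarsR, hRpos, ?_⟩
  have hRposR : (0 : ℝ) < ordW H P R := by exact_mod_cast hRpos
  linarith

end

end Pool.Agent.GZ
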