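import Pool.Agent.Lib.MP_c95b3b_ag_GZ.Defs
import Pool.Agent.Lib.MP_c95b3b_ag_GZ.ZJ

/-! Project G (MP_c95b3b_ag), block GZ, module ZK: small order from the absence of small relations. -/

namespace Pool.Agent.GZ

open Module MvPolynomial
open Pool.Agent.AL (wt Scales)

/-- no relation of degree `B` and height `δ * s j` between the coordinates in `I` of the block
`j` -/
def NoR {ι K : Type} [Fintype ι] [DecidableEq ι] [Field K] {q : ℕ} (S : SzF ι K) (I : Finset ι)
    (blk : ι → Fin (q + 1)) (P : ι → K) (s : Fin (q + 1) → ℝ) (B δ : ℝ) : Prop :=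
  ∀ (j : Fin (q + 1)) (R : MvPolynomial ι K), R ≠ 0 → (∀ i ∈ R.vars, i ∈ I ∧ blk i = j) →
    (∀ i, (R.degreeOf i : ℝ) ≤ B) → S.L R ≤ δ * s j → aeval P R ≠ 0

theorem order_small {ι : Type} [Fintype ι] [DecidableEq ι] {q : ℕ} (blk : ι → Fin (q + 1))
    (𝒰 : Ultrafilter ℕ) (K : ℕ → Type) [∀ n, Field (K n)] [∀ n, CharZero (K n)]
    (S : ∀ n, SzF ι (K n)) (U : ∀ n, ι → K n) (s : ℕ → Fin (q + 1) → ℝ) (hs : Scales q 𝒰 s)
    (I : Finset ι)
    (hno : ∀ B : ℝ, ∃ δ : ℝ, 0 < δ ∧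
      ∀ᶠ n in (𝒰 : Filter ℕ), NoR (S n) I blk (U n) (s n) B δ)
    (A0 θ : ℝ) (hθ : 0 < θ) : ∃ δ : ℝ, 0 < δ ∧
    ∀ᶠ n in (𝒰 : Filter ℕ), ∀ (H : ι → ℕ) (M : ℝ) (f : MvPolynomial ι (K n)),
      (∀ i, s n (blk i) ≤ H i ∧ (H i : ℝ) ≤ 2 * s n (blk i)) → (∀ j, s n j ≤ M) →
      f ≠ 0 → f.vars ⊆ I → (∀ i, (f.degreeOf i : ℝ) ≤ A0 * M / s n (blk i)) →
      (S n).L f ≤ δ * M → (ordW H (U n) f : ℝ) < θ * M := by
  classical
  set A' : ℝ := max A0 0 with hA'
  have hA'0 : 0 ≤ A' := le_max_right _ _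
  set D : ℝ := 2 * Fintype.card ι * A' + 1 with hD
  have hD0 : 0 < D := by positivity
  set t : ℝ := θ / D with ht
  have ht0 : 0 < t := div_pos hθ hD0
  have htD : t * D = θ := div_mul_cancel₀ _ hD0.ne'
  obtain ⟨A1, hA1⟩ := lemmaZ (Fintype.card ι) t ht0
  set A : ℝ := max A1 1 with hA
  have hAA1 : A1 ≤ A := le_max_left _ _
  have hA1' : 1 ≤ A := le_max_right _ _
  obtain ⟨δB, hδB, hnoB⟩ := hno A
  set T : ℝ := max 1 (2 * A / δB) with hT
  have hT1 : 1 ≤ T := le_max_left _ _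
  have hT0 : 0 < T := by linarith
  have hT2 : 2 * A ≤ δB * T := by
    have h1 : 2 * A / δB ≤ T := le_max_right _ _
    rw [div_le_iff₀ hδB] at h1
    linarith
  refine ⟨1 / T, by positivity, ?_⟩
  filter_upwards [hs.large T, hs.sep (4 * A + 1), hnoB] with n hn1 hn2 hn3
  intro H M f hH hM hf hfI hfd hfl
  by_contra hcon
  push Not at hcon
  have hs0 : 0 < s n 0 := by linarith
  have hs0j : ∀ j, s n 0 ≤ s n j := by
    intro j
    rcases Nat.eq_zero_or_pos (j : ℕ) with hj | hj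
    · have : j = 0 := Fin.ext hj
      rw [this]
    · have h1 := hn2 0 j (Fin.lt_def.2 hj)
      nlinarith
  have hsj : ∀ j, 0 < s n j := fun j => lt_of_lt_of_le hs0 (hs0j j)
  have hHT : ∀ i, T ≤ (H i : ℝ) := fun i => (hn1.trans (hs0j _)).trans (hH i).1
  have hH1 : ∀ i, 1 ≤ (H i : ℝ) := fun i => hT1.trans (hHT i)
  have hM0 : 0 < M := lt_of_lt_of_le hs0 (hM 0)
  have hord : 0 < ordW H (U n) f := by
    have h1 : 0 < θ * M := mul_pos hθ hM0
    have h2 : (0 : ℝ) < (ordW H (U n) f : ℝ) := lt_of_lt_of_le h1 hcon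
    exact_mod_cast h2
  -- the size of `f`
  have hszf : sz (S n) H T f ≤ D * M := by
    have h1 : ∀ i, (H i : ℝ) * f.degreeOf i ≤ 2 * A' * M := by
      intro i
      have h2 : (f.degreeOf i : ℝ) ≤ A' * M / s n (blk i) := by
        refine (hfd i).trans ?_
        refine div_le_div_of_nonneg_right ?_ (hsj _).le
        exact mul_le_mul_of_nonneg_right (le_max_left _ _) hM0.le
      have h3 : (H i : ℝ) * f.degreeOf i ≤ 2 * s n (blk i) * (A' * M / s n (blk i)) :=
        mul_le_mul (hH i).2 h2 (Nat.cast_nonneg _) (by linarith [hsj (blk i)])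
      have h4 : 2 * s n (blk i) * (A' * M / s n (blk i)) = 2 * A' * M := by
        have h5 := (hsj (blk i)).ne'
        field_simp
      linarith
    have h6 : ∑ i, (H i : ℝ) * f.degreeOf i ≤ ∑ _i : ι, 2 * A' * M :=
      Finset.sum_le_sum fun i _ => h1 i
    rw [Finset.sum_const, Finset.card_univ, nsmul_eq_mul] at h6
    have h7 : T * (S n).L f ≤ M := by
      have h8 := mul_le_mul_of_nonneg_left hfl hT0.le
      have h9 : T * (1 / T * M) = M := by
        field_simp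
      linarith
    unfold sz
    have h10 : D * M = (Fintype.card ι : ℝ) * (2 * A' * M) + M := by
      rw [hD]
      ring
    linarith
  have hth : t * sz (S n) H T f ≤ ordW H (U n) f := by
    have h1 := mul_le_mul_of_nonneg_left hszf ht0.le
    have h2 : t * (D * M) = θ * M := by
      rw [← mul_assoc, htD]
    linarith
  obtain ⟨R, hR0, ⟨i0, hi0⟩, hRf, hRa, hRs⟩ := hA1 ι (K n) (S n) (U n) H T hT1 hHT f hf
    (Finset.card_le_univ _) hord hth
  have hLR : 0 ≤ (S n).L R := (S n).nonneg R hR0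
  have hsz1 : ∀ i, (H i : ℝ) * R.degreeOf i ≤ sz (S n) H T R := by
    intro i
    have h1 : (H i : ℝ) * R.degreeOf i ≤ ∑ i, (H i : ℝ) * R.degreeOf i :=
      Finset.single_le_sum (f := fun i => (H i : ℝ) * R.degreeOf i)
        (fun i _ => by positivity) (Finset.mem_univ i)
    have h2 : 0 ≤ T * (S n).L R := mul_nonneg hT0.le hLR
    unfold sz
    linarith
  have hsz2 : T * (S n).L R ≤ sz (S n) H T R := by
    have h1 : 0 ≤ ∑ i, (H i : ℝ) * R.degreeOf i := Finset.sum_nonneg fun i _ => by positivity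
    unfold sz
    linarith
  have hszA : ∀ i ∈ R.vars, sz (S n) H T R ≤ A * H i := fun i hi =>
    (hRs i hi).trans (mul_le_mul_of_nonneg_right hAA1 (by linarith [hH1 i]))
  have hdeg1 : ∀ i ∈ R.vars, (1 : ℝ) ≤ R.degreeOf i := by
    intro i hi
    have h1 := mem_vars_iff_degreeOf_ne_zero.1 hi
    exact_mod_cast Nat.one_le_iff_ne_zero.2 h1
  have hcmp : ∀ i ∈ R.vars, ∀ i' ∈ R.vars, s n (blk i') ≤ 2 * A * s n (blk i) := by
    intro i hi i' hi'
    have h1 : (H i' : ℝ) ≤ H i' * R.degreeOf i' :=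
      le_mul_of_one_le_right (by linarith [hH1 i']) (hdeg1 i' hi')
    have h2 := (h1.trans (hsz1 i')).trans (hszA i hi)
    have h3 := (hH i').1
    have h4 : A * H i ≤ A * (2 * s n (blk i)) :=
      mul_le_mul_of_nonneg_left (hH i).2 (by linarith)
    linarith
  have hnlt : ∀ i ∈ R.vars, ∀ i' ∈ R.vars, ¬ blk i < blk i' := by
    intro i hi i' hi' hlt
    have h1 := hn2 _ _ hlt
    have h2 := hcmp i hi i' hi'
    have h3 : 0 < s n (blk i) := hsj (blk i)
    nlinarith
  have hblk : ∀ i ∈ R.vars, blk i = blk i0 := by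
    intro i hi
    rcases lt_trichotomy (blk i) (blk i0) with h | h | h
    · exact absurd h (hnlt i hi i0 hi0)
    · exact h
    · exact absurd h (hnlt i0 hi0 i hi)
  refine hn3 (blk i0) R hR0 (fun i hi => ⟨hfI (hRf hi), hblk i hi⟩) (fun i => ?_) ?_ hRa
  · by_cases hi : i ∈ R.vars
    · have h1 := (hsz1 i).trans (hszA i hi)
      have h3 : (0 : ℝ) < H i := by linarith [hH1 i]
      rw [mul_comm A] at h1
      exact le_of_mul_le_mul_left h1 h3
    · have h1 : R.degreeOf i = 0 := by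
        by_contra h
        exact hi (mem_vars_iff_degreeOf_ne_zero.2 h)
      rw [h1]
      push_cast
      linarith
  · have h1 := hsz2.trans (hszA i0 hi0)
    have h2 : A * H i0 ≤ A * (2 * s n (blk i0)) :=
      mul_le_mul_of_nonneg_left (hH i0).2 (by linarith)
    have h3 : T * (S n).L R ≤ 2 * A * s n (blk i0) := by linarith
    have h4 : 2 * A * s n (blk i0) ≤ δB * T * s n (blk i0) :=
      mul_le_mul_of_nonneg_right hT2 (hsj _).le
    have h5 : T * (S n).L R ≤ T * (δB * s n (blk i0)) := by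
      have h6 : δB * T * s n (blk i0) = T * (δB * s n (blk i0)) := by ring
      linarith
    exact le_of_mul_le_mul_left h5 hT0

end Pool.Agent.GZ
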